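import Mathlib

/-!
# Pairs with a perfect fourth power as product: more than `C n^(1/2)` numbers must be deleted

For a prime `q`, a squarefree `u < q` and `v` not divisible by `q` the pair `{u v^2 q^3, u^3 v^2 q}` has the
product `(u v q)^4`, and these pairs are pairwise disjoint. There are `≫ √n ∑_{q ≤ M} 1/q` of them in
`{1, ..., n}`, and `∑ 1/q` diverges.
-/

set_option autoImplicit false

open Finset Filter

namespace Pool.Agent.Results.MP_5e019f_nt.SquareRootFails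

/-- no product of `k` pairwise distinct elements of `A` is the `d`-th power of a positive integer -/
def DistinctFree (k d : ℕ) (A : Finset ℕ) : Prop :=
  ∀ S ⊆ A, S.card = k → ¬ ∃ x : ℕ, 0 < x ∧ ∏ a ∈ S, a = x ^ d

/-- no product `a_1 ⋯ a_k` of elements of `A`, repetitions allowed, is the `d`-th power of a positive
integer -/
def RepeatedFree (k d : ℕ) (A : Finset ℕ) : Prop :=
  ∀ a : Fin k → ℕ, (∀ i, a i ∈ A) → ¬ ∃ x : ℕ, 0 < x ∧ ∏ i, a i = x ^ d

open Classical in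
/-- the largest size of a set `A ⊆ {1, ..., n}` with `DistinctFree k d A` -/
noncomputable def F (k d n : ℕ) : ℕ :=
  ((Icc 1 n).powerset.filter (DistinctFree k d)).sup Finset.card

open Classical in
/-- the largest size of a set `A ⊆ {1, ..., n}` with `RepeatedFree k d A` -/
noncomputable def f (k d n : ℕ) : ℕ :=
  ((Icc 1 n).powerset.filter (RepeatedFree k d)).sup Finset.card

/-- uniqueness of the squarefree part -/
lemma sf_unique {s t a b : ℕ} (hs : Squarefree s) (ht : Squarefree t) (ha : a ≠ 0) (hb : b ≠ 0)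
    (h : s * a ^ 2 = t * b ^ 2) : s = t ∧ a = b := by
  have hs0 : s ≠ 0 := hs.ne_zero
  have ht0 : t ≠ 0 := ht.ne_zero
  have hst : s = t := by
    apply Nat.eq_of_factorization_eq hs0 ht0
    intro p
    have h1 := congrArg (fun m => m.factorization p) h
    beta_reduce at h1
    rw [Nat.factorization_mul hs0 (pow_ne_zero 2 ha), Nat.factorization_mul ht0 (pow_ne_zero 2 hb),
      Nat.factorization_pow, Nat.factorization_pow] at h1
    simp only [Finsupp.add_apply, Finsupp.smul_apply, smul_eq_mul] at h1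
    have h2 := hs.natFactorization_le_one p
    have h3 := ht.natFactorization_le_one p
    omega
  subst hst
  refine ⟨rfl, ?_⟩
  have h1 := Nat.eq_of_mul_eq_mul_left (Nat.pos_of_ne_zero hs0) h
  exact Nat.pow_left_injective (by norm_num : 2 ≠ 0) h1

/-- the admissible `u` -/
def U (q : ℕ) : Finset ℕ := (Icc 1 (q - 1)).filter Squarefree

/-- the admissible `v` -/
def V (q n : ℕ) : Finset ℕ := (Icc 1 (Nat.sqrt n / q ^ 2)).filter (fun v => ¬ q ∣ v)

/-- the index set of the pairs -/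
def T (Q : Finset ℕ) (n : ℕ) : Finset (Σ _ : ℕ, ℕ × ℕ) := Q.sigma (fun q => U q ×ˢ V q n)

/-- the larger element of a pair -/
def big (t : Σ _ : ℕ, ℕ × ℕ) : ℕ := t.2.1 * t.2.2 ^ 2 * t.1 ^ 3

/-- the smaller element of a pair -/
def small (t : Σ _ : ℕ, ℕ × ℕ) : ℕ := t.2.1 ^ 3 * t.2.2 ^ 2 * t.1

lemma mem_T {Q : Finset ℕ} {n : ℕ} {t : Σ _ : ℕ, ℕ × ℕ} (ht : t ∈ T Q n) :
    t.1 ∈ Q ∧ 1 ≤ t.2.1 ∧ t.2.1 ≤ t.1 - 1 ∧ Squarefree t.2.1 ∧ 1 ≤ t.2.2 ∧
      t.2.2 ≤ Nat.sqrt n / t.1 ^ 2 ∧ ¬ t.1 ∣ t.2.2 := by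
  rw [T, Finset.mem_sigma, Finset.mem_product, U, V, Finset.mem_filter, Finset.mem_filter,
    Finset.mem_Icc, Finset.mem_Icc] at ht
  tauto

lemma sq_uq {q u : ℕ} (hq : q.Prime) (hu1 : 1 ≤ u) (huq : u ≤ q - 1) (hu : Squarefree u) :
    Squarefree (u * q) := by
  rw [Nat.squarefree_mul_iff]
  refine ⟨?_, hu, hq.squarefree⟩
  exact (Nat.coprime_of_lt_prime (by omega) (by omega) hq).symm

/-- the pair `(q, u)` is determined by `u q` -/
lemma uq_inj {q u q' u' : ℕ} (hq : q.Prime) (hq' : q'.Prime) (hu1 : 1 ≤ u) (huq : u ≤ q - 1)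
    (hu1' : 1 ≤ u') (huq' : u' ≤ q' - 1) (h : u * q = u' * q') : q = q' ∧ u = u' := by
  have h1 : q = q' := by
    have h2 : q ∣ u' * q' := by rw [← h]; exact dvd_mul_left _ _
    have h3 : q' ∣ u * q := by rw [h]; exact dvd_mul_left _ _
    rcases hq.dvd_mul.1 h2 with h4 | h4
    · rcases hq'.dvd_mul.1 h3 with h5 | h5
      · have h6 := Nat.le_of_dvd (by omega) h4
        have h7 := Nat.le_of_dvd (by omega) h5
        omega
      · exact ((Nat.prime_dvd_prime_iff_eq hq' hq).1 h5).symm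
    · exact (Nat.prime_dvd_prime_iff_eq hq hq').1 h4
  subst h1
  exact ⟨rfl, Nat.eq_of_mul_eq_mul_right hq.pos h⟩

section
variable {Q : Finset ℕ} (hQ : ∀ q ∈ Q, q.Prime) {n : ℕ}
include hQ

lemma key {t t' : Σ _ : ℕ, ℕ × ℕ} (ht : t ∈ T Q n) (ht' : t' ∈ T Q n)
    {a b : ℕ} (ha : a ≠ 0) (hb : b ≠ 0)
    (h : t.2.1 * t.1 * a ^ 2 = t'.2.1 * t'.1 * b ^ 2) : t.1 = t'.1 ∧ t.2.1 = t'.2.1 ∧ a = b := by
  obtain ⟨h1, h2, h3, h4, -⟩ := mem_T ht
  obtain ⟨h1', h2', h3', h4', -⟩ := mem_T ht'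
  have hq := hQ _ h1
  have hq' := hQ _ h1'
  obtain ⟨h5, h6⟩ := sf_unique (sq_uq hq h2 h3 h4) (sq_uq hq' h2' h3' h4') ha hb h
  obtain ⟨h7, h8⟩ := uq_inj hq hq' h2 h3 h2' h3' h5
  exact ⟨h7, h8, h6⟩

lemma big_inj {t t' : Σ _ : ℕ, ℕ × ℕ} (ht : t ∈ T Q n) (ht' : t' ∈ T Q n)
    (h : big t = big t') : t = t' := by
  obtain ⟨q, u, v⟩ := t
  obtain ⟨q', u', v'⟩ := t'
  have h0 := mem_T ht
  have h0' := mem_T ht'
  simp only [big] at h h0 h0'
  have hq := (hQ _ h0.1).pos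
  have hq' := (hQ _ h0'.1).pos
  obtain ⟨h1, h2, h3⟩ := key hQ ht ht' (a := v * q) (b := v' * q')
    (Nat.mul_ne_zero (by omega) (by omega)) (Nat.mul_ne_zero (by omega) (by omega))
    (by simp only; nlinarith)
  simp only at h1 h2
  subst h1 h2
  have h4 : v = v' := Nat.eq_of_mul_eq_mul_right hq h3
  rw [h4]

lemma small_inj {t t' : Σ _ : ℕ, ℕ × ℕ} (ht : t ∈ T Q n) (ht' : t' ∈ T Q n)
    (h : small t = small t') : t = t' := by
  obtain ⟨q, u, v⟩ := t
  obtain ⟨q', u', v'⟩ := t'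
  have h0 := mem_T ht
  have h0' := mem_T ht'
  simp only [small] at h h0 h0'
  obtain ⟨h1, h2, h3⟩ := key hQ ht ht' (a := u * v) (b := u' * v')
    (Nat.mul_ne_zero (by omega) (by omega)) (Nat.mul_ne_zero (by omega) (by omega))
    (by simp only; nlinarith)
  simp only at h1 h2
  subst h1 h2
  have h4 : v = v' := Nat.eq_of_mul_eq_mul_left (by omega) h3
  rw [h4]

lemma big_ne_small {t t' : Σ _ : ℕ, ℕ × ℕ} (ht : t ∈ T Q n) (ht' : t' ∈ T Q n) :
    big t ≠ small t' := by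
  intro h
  obtain ⟨q, u, v⟩ := t
  obtain ⟨q', u', v'⟩ := t'
  have h0 := mem_T ht
  have h0' := mem_T ht'
  simp only [small, big] at h h0 h0'
  have hqp := hQ _ h0.1
  have hq := hqp.pos
  obtain ⟨h1, h2, h3⟩ := key hQ ht ht' (a := v * q) (b := u' * v')
    (Nat.mul_ne_zero (by omega) (by omega)) (Nat.mul_ne_zero (by omega) (by omega))
    (by simp only; nlinarith)
  simp only at h1 h2
  subst h1 h2
  have h4 : q ∣ u * v' := by rw [← h3]; exact dvd_mul_left _ _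
  rcases hqp.dvd_mul.1 h4 with h5 | h5
  · have := Nat.le_of_dvd (by omega) h5
    omega
  · exact h0'.2.2.2.2.2.2 h5

lemma big_le {t : Σ _ : ℕ, ℕ × ℕ} (ht : t ∈ T Q n) : big t ≤ n := by
  obtain ⟨q, u, v⟩ := t
  have h0 := mem_T ht
  simp only [big] at h0 ⊢
  have hq := (hQ _ h0.1).pos
  have h1 : v * q ^ 2 ≤ Nat.sqrt n := by
    calc v * q ^ 2 ≤ Nat.sqrt n / q ^ 2 * q ^ 2 := Nat.mul_le_mul_right _ h0.2.2.2.2.2.1
      _ ≤ Nat.sqrt n := Nat.div_mul_le_self _ _
  calc u * v ^ 2 * q ^ 3 ≤ q * v ^ 2 * q ^ 3 := by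
        apply Nat.mul_le_mul_right
        apply Nat.mul_le_mul_right
        omega
    _ = (v * q ^ 2) * (v * q ^ 2) := by ring
    _ ≤ Nat.sqrt n * Nat.sqrt n := Nat.mul_le_mul h1 h1
    _ ≤ n := Nat.sqrt_le n

omit hQ in
lemma small_le_big {t : Σ _ : ℕ, ℕ × ℕ} (ht : t ∈ T Q n) : small t ≤ big t := by
  obtain ⟨q, u, v⟩ := t
  have h0 := mem_T ht
  simp only [big, small] at h0 ⊢
  have h1 : u ^ 2 ≤ q ^ 2 := Nat.pow_le_pow_left (by omega) 2
  calc u ^ 3 * v ^ 2 * q = u ^ 2 * (u * v ^ 2 * q) := by ring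
    _ ≤ q ^ 2 * (u * v ^ 2 * q) := Nat.mul_le_mul_right _ h1
    _ = u * v ^ 2 * q ^ 3 := by ring

lemma small_pos {t : Σ _ : ℕ, ℕ × ℕ} (ht : t ∈ T Q n) : 1 ≤ small t := by
  obtain ⟨q, u, v⟩ := t
  have h0 := mem_T ht
  simp only [small] at h0 ⊢
  have hq := (hQ _ h0.1).pos
  have hu : 0 < u := h0.2.1
  have hv : 0 < v := h0.2.2.2.2.1
  exact Nat.pos_of_ne_zero (by positivity)

/-- every admissible set misses at least `|T Q n|` numbers -/
lemma card_le {A : Finset ℕ} (hA : A ⊆ Icc 1 n) (hfree : DistinctFree 2 4 A) :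
    A.card + (T Q n).card ≤ n := by
  classical
  have h1 : (T Q n).card ≤ ((Icc 1 n) \ A).card := by
    apply Finset.card_le_card_of_injOn (fun t => if big t ∈ A then small t else big t)
    · intro t ht
      rw [Finset.mem_coe] at ht
      have hb := big_le hQ ht
      have hsb := small_le_big ht
      have hs := small_pos hQ ht
      rw [Finset.mem_coe, Finset.mem_sdiff, Finset.mem_Icc]
      beta_reduce
      split_ifs with h
      · refine ⟨⟨hs, by omega⟩, fun h2 => ?_⟩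
        refine hfree {small t, big t} ?_ ?_ ⟨t.2.1 * t.2.2 * t.1, ?_, ?_⟩
        · intro x hx
          rw [Finset.mem_insert, Finset.mem_singleton] at hx
          rcases hx with rfl | rfl
          · exact h2
          · exact h
        · rw [Finset.card_pair (big_ne_small hQ ht ht).symm]
        · have h0 := mem_T ht
          have hq := (hQ _ h0.1).pos
          have h3 : 0 < t.2.1 := h0.2.1
          have h4 : 0 < t.2.2 := h0.2.2.2.2.1
          positivity
        · rw [Finset.prod_pair (big_ne_small hQ ht ht).symm, small, big]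
          ring
      · exact ⟨⟨by omega, hb⟩, h⟩
    · intro t ht t' ht' h
      rw [Finset.mem_coe] at ht ht'
      beta_reduce at h
      split_ifs at h with h1 h2
      · exact small_inj hQ ht ht' h
      · exact absurd h.symm (big_ne_small hQ ht' ht)
      · exact absurd h (big_ne_small hQ ht ht')
      · exact big_inj hQ ht ht' h
  have h2 := Finset.card_sdiff_add_card_eq_card hA
  rw [Nat.card_Icc] at h2
  omega

end

/-- at least a quarter of the integers up to `x` are squarefree -/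
lemma card_squarefree (x : ℕ) : x ≤ 4 * ((Icc 1 x).filter Squarefree).card := by
  classical
  have h1 : ((Icc 1 x).filter Squarefree).card + ((Icc 1 x).filter (fun m => ¬ Squarefree m)).card
      = x := by
    rw [Finset.card_filter_add_card_filter_not]
    simp
  have h2 : (Icc 1 x).filter (fun m => ¬ Squarefree m) ⊆
      (Icc 2 x).biUnion (fun d => (Icc 1 x).filter (fun m => d ^ 2 ∣ m)) := by
    intro m hm
    rw [Finset.mem_filter, Finset.mem_Icc] at hm
    obtain ⟨⟨hm1, hmx⟩, hm2⟩ := hm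
    rw [Nat.squarefree_iff_prime_squarefree] at hm2
    push Not at hm2
    obtain ⟨p, hp, hpm⟩ := hm2
    rw [Finset.mem_biUnion]
    refine ⟨p, ?_, ?_⟩
    · rw [Finset.mem_Icc]
      refine ⟨hp.two_le, ?_⟩
      have := Nat.le_of_dvd (by omega) hpm
      nlinarith [hp.two_le]
    · rw [Finset.mem_filter, Finset.mem_Icc, pow_two]
      exact ⟨⟨hm1, hmx⟩, hpm⟩
  have h3 : ((((Icc 1 x).filter (fun m => ¬ Squarefree m)).card : ℕ) : ℝ) ≤
      ∑ d ∈ Icc 2 x, (x : ℝ) / (d : ℝ) ^ 2 := by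
    have h4 : ((Icc 1 x).filter (fun m => ¬ Squarefree m)).card ≤ ∑ d ∈ Icc 2 x, x / d ^ 2 := by
      refine (Finset.card_le_card h2).trans (Finset.card_biUnion_le.trans ?_)
      apply Finset.sum_le_sum
      intro d hd
      have h5 : (Icc 1 x).filter (fun m => d ^ 2 ∣ m) = (Ioc 0 x).filter (fun m => d ^ 2 ∣ m) := by
        congr 1
      rw [h5, Nat.Ioc_filter_dvd_card_eq_div]
    calc _ ≤ ((∑ d ∈ Icc 2 x, x / d ^ 2 : ℕ) : ℝ) := by exact_mod_cast h4
      _ = ∑ d ∈ Icc 2 x, ((x / d ^ 2 : ℕ) : ℝ) := by push_cast; rfl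
      _ ≤ _ := by
        apply Finset.sum_le_sum
        intro d _
        have := @Nat.cast_div_le ℝ _ _ _ x (d ^ 2)
        push_cast at this
        exact this
  -- telescoping bound
  have h6 : ∀ y : ℕ, 2 ≤ y → ∑ d ∈ Icc 2 y, (1 : ℝ) / (d : ℝ) ^ 2 ≤ 3 / 4 - 1 / y := by
    intro y hy
    induction y, hy using Nat.le_induction with
    | base => norm_num
    | succ y hy ih =>
      rw [Finset.sum_Icc_succ_top (by omega)]
      have hy0 : (0 : ℝ) < y := by
        have : 0 < y := by omega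
        exact_mod_cast this
      have h7 : (1 : ℝ) / ((y + 1 : ℕ) : ℝ) ^ 2 ≤ 1 / y - 1 / ((y + 1 : ℕ) : ℝ) := by
        push_cast
        rw [div_sub_div _ _ hy0.ne' (by positivity), div_le_div_iff₀ (by positivity) (by positivity)]
        nlinarith
      linarith
  rcases Nat.lt_or_ge x 2 with hx | hx
  · interval_cases x
    · simp
    · have : (Icc 1 1 : Finset ℕ).filter Squarefree = {1} := by
        ext m
        simp only [Finset.Icc_self, Finset.mem_filter, Finset.mem_singleton]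
        constructor
        · exact fun h => h.1
        · rintro rfl; exact ⟨rfl, squarefree_one⟩
      rw [this]; simp
  · have h8 : ∑ d ∈ Icc 2 x, (x : ℝ) / (d : ℝ) ^ 2 ≤ 3 / 4 * x := by
      have h9 : ∑ d ∈ Icc 2 x, (x : ℝ) / (d : ℝ) ^ 2 = x * ∑ d ∈ Icc 2 x, (1 : ℝ) / (d : ℝ) ^ 2 := by
        rw [Finset.mul_sum]
        apply Finset.sum_congr rfl
        intro d _
        ring
      rw [h9]
      have hx0 : (0 : ℝ) < x := by
        have : 0 < x := by omega
        exact_mod_cast this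
      have h10 := h6 x hx
      have h11 : (0 : ℝ) < 1 / x := by positivity
      nlinarith
    have h12 := h3.trans h8
    have h13 : (x : ℝ) = (((Icc 1 x).filter Squarefree).card : ℝ) +
        (((Icc 1 x).filter (fun m => ¬ Squarefree m)).card : ℝ) := by exact_mod_cast h1.symm
    have h14 : (x : ℝ) ≤ 4 * (((Icc 1 x).filter Squarefree).card : ℝ) := by linarith
    exact_mod_cast h14

/-- the number of admissible `v` -/
lemma card_V {q : ℕ} (hq : 2 ≤ q) (n : ℕ) : Nat.sqrt n / q ^ 2 ≤ 2 * (V q n).card := by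
  have h1 := Finset.card_filter_add_card_filter_not (s := Icc 1 (Nat.sqrt n / q ^ 2))
    (fun v => q ∣ v)
  have h2 : (Icc 1 (Nat.sqrt n / q ^ 2)).filter (fun v => q ∣ v) =
      (Ioc 0 (Nat.sqrt n / q ^ 2)).filter (fun v => q ∣ v) := by congr 1
  rw [h2, Nat.Ioc_filter_dvd_card_eq_div, Nat.card_Icc] at h1
  have h3 : Nat.sqrt n / q ^ 2 / q ≤ Nat.sqrt n / q ^ 2 / 2 := Nat.div_le_div_left hq (by norm_num)
  rw [V]
  omega

/-- lower bound for the number of pairs -/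
lemma card_T {Q : Finset ℕ} (hQ : ∀ q ∈ Q, q.Prime) (n : ℕ) :
    Real.sqrt n * ((∑ q ∈ Q, 1 / (q : ℝ)) / 16) - ∑ q ∈ Q, (q : ℝ) ≤ ((T Q n).card : ℝ) := by
  rw [T, Finset.card_sigma]
  push_cast
  rw [Finset.sum_div, Finset.mul_sum, ← Finset.sum_sub_distrib]
  apply Finset.sum_le_sum
  intro q hq
  have hqp := hQ q hq
  have hq2 := hqp.two_le
  rw [Finset.card_product]
  have h1 : q - 1 ≤ 4 * (U q).card := card_squarefree (q - 1)
  have h2 := card_V hq2 n
  have hq0 : (0 : ℝ) < q := by exact_mod_cast hqp.pos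
  have h3 : (q : ℝ) / 2 ≤ 4 * ((U q).card : ℝ) := by
    have h4 : q ≤ 8 * (U q).card := by omega
    have h5 : (q : ℝ) ≤ 8 * ((U q).card : ℝ) := by exact_mod_cast h4
    linarith
  have h4 : Real.sqrt n / (q : ℝ) ^ 2 - 2 ≤ 2 * ((V q n).card : ℝ) := by
    have h5 : Real.sqrt n ≤ (Nat.sqrt n : ℝ) + 1 := Real.sqrt_le_iff.2 ⟨by positivity, by
      have := Nat.sqrt_le_add n
      have h6 : (n : ℝ) ≤ (Nat.sqrt n : ℝ) * Nat.sqrt n + Nat.sqrt n + Nat.sqrt n := by
        exact_mod_cast this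
      nlinarith⟩
    have h6 : (Nat.sqrt n : ℝ) / (q : ℝ) ^ 2 - 1 ≤ ((Nat.sqrt n / q ^ 2 : ℕ) : ℝ) := by
      have h7 : Nat.sqrt n < q ^ 2 * (Nat.sqrt n / q ^ 2 + 1) :=
        Nat.lt_mul_div_succ _ (by positivity)
      have h8 : (Nat.sqrt n : ℝ) < (q : ℝ) ^ 2 * (((Nat.sqrt n / q ^ 2 : ℕ) : ℝ) + 1) := by
        exact_mod_cast h7
      have h9 : (Nat.sqrt n : ℝ) / (q : ℝ) ^ 2 < ((Nat.sqrt n / q ^ 2 : ℕ) : ℝ) + 1 := by
        rw [div_lt_iff₀ (by positivity)]
        linarith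
      linarith
    have h7 : ((Nat.sqrt n / q ^ 2 : ℕ) : ℝ) ≤ 2 * ((V q n).card : ℝ) := by exact_mod_cast h2
    have h8 : Real.sqrt n / (q : ℝ) ^ 2 ≤ ((Nat.sqrt n : ℝ) + 1) / (q : ℝ) ^ 2 :=
      div_le_div_of_nonneg_right h5 (by positivity)
    have h9 : ((Nat.sqrt n : ℝ) + 1) / (q : ℝ) ^ 2 = (Nat.sqrt n : ℝ) / (q : ℝ) ^ 2 +
        1 / (q : ℝ) ^ 2 := by ring
    have h10 : 1 / (q : ℝ) ^ 2 ≤ 1 := by
      rw [div_le_one (by positivity)]
      have : (1 : ℝ) ≤ q := by exact_mod_cast hqp.one_le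
      nlinarith
    linarith
  push_cast
  have h5 : Real.sqrt n * (1 / (q : ℝ) / 16) = (q / 8) * (Real.sqrt n / (q : ℝ) ^ 2 / 2) := by
    field_simp
    ring
  have hU : (q : ℝ) / 8 ≤ ((U q).card : ℝ) := by linarith
  have hU2 : ((U q).card : ℝ) ≤ q := by
    have h6 : (U q).card ≤ q := by
      have : (U q).card ≤ (Icc 1 (q - 1)).card := Finset.card_filter_le _ _
      rw [Nat.card_Icc] at this
      omega
    exact_mod_cast h6
  have hV : Real.sqrt n / (q : ℝ) ^ 2 / 2 ≤ ((V q n).card : ℝ) + 1 := by linarith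
  have hV0 : 0 ≤ Real.sqrt n / (q : ℝ) ^ 2 / 2 := by positivity
  rw [h5]
  calc (q / 8 : ℝ) * (Real.sqrt n / (q : ℝ) ^ 2 / 2) - q
      ≤ ((U q).card : ℝ) * (((V q n).card : ℝ) + 1) - q := by
        have := mul_le_mul hU hV hV0 (Nat.cast_nonneg _)
        linarith
    _ ≤ _ := by linarith

lemma F_add_card_T {Q : Finset ℕ} (hQ : ∀ q ∈ Q, q.Prime) (n : ℕ) :
    F 2 4 n + (T Q n).card ≤ n := by
  classical
  have h0 : (T Q n).card ≤ n := by
    have h1 := card_le (n := n) hQ (A := ∅) (Finset.empty_subset _) (by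
      intro S hS hc
      rw [Finset.subset_empty] at hS
      subst hS
      simp at hc)
    omega
  have h1 : F 2 4 n ≤ n - (T Q n).card := by
    rw [F]
    apply Finset.sup_le
    intro A hA
    rw [Finset.mem_filter, Finset.mem_powerset] at hA
    have := card_le hQ hA.1 hA.2
    omega
  omega

lemma f_le_F (k d n : ℕ) : f k d n ≤ F k d n := by
  classical
  rw [F, f]
  apply Finset.sup_mono
  intro A hA
  rw [Finset.mem_filter] at hA ⊢
  refine ⟨hA.1, fun S hS hc => ?_⟩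
  rintro ⟨x, hx, h⟩
  obtain ⟨e⟩ : Nonempty (Fin k ≃ S) := ⟨(S.equivFinOfCardEq hc).symm⟩
  refine hA.2 (fun i => (e i : ℕ)) (fun i => hS (e i).2) ⟨x, hx, ?_⟩
  rw [← h, ← Finset.prod_coe_sort S]
  exact Equiv.prod_comp e (fun s : S => (s : ℕ))

/-- `(n - F_{2,4}(n)) / n^(1/2) → ∞` -/
lemma tendsto_two_four : Tendsto (fun n : ℕ => ((n : ℝ) - F 2 4 n) / (n : ℝ) ^ ((2 : ℝ) / 4)) atTop
    atTop := by
  rw [tendsto_atTop]
  intro K
  -- a finite set of primes with large reciprocal sum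
  obtain ⟨Q, hQ, hsum⟩ : ∃ Q : Finset ℕ, (∀ q ∈ Q, q.Prime) ∧ 16 * (K + 1) ≤ ∑ q ∈ Q, 1 / (q : ℝ) := by
    have h1 := not_summable_one_div_on_primes
    by_contra hcon
    push Not at hcon
    apply h1
    apply summable_of_sum_le (c := 16 * (K + 1))
    · intro p
      exact Set.indicator_nonneg (fun p _ => by positivity) p
    · intro u
      classical
      have h2 := hcon (u.filter Nat.Prime) (fun q hq => (Finset.mem_filter.1 hq).2)
      refine le_of_eq_of_le ?_ h2.le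
      rw [Finset.sum_filter]
      apply Finset.sum_congr rfl
      intro x _
      rw [Set.indicator_apply]
      rfl
  have hsqrt : Tendsto (fun n : ℕ => Real.sqrt n) atTop atTop :=
    Real.tendsto_sqrt_atTop.comp tendsto_natCast_atTop_atTop
  filter_upwards [hsqrt.eventually_ge_atTop (∑ q ∈ Q, (q : ℝ)), eventually_ge_atTop 1] with n hn hn1
  have hpow : (n : ℝ) ^ ((2 : ℝ) / 4) = Real.sqrt n := by
    rw [Real.sqrt_eq_rpow]
    norm_num
  have hs0 : 0 < Real.sqrt n := by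
    apply Real.sqrt_pos.2
    exact_mod_cast hn1
  rw [hpow, le_div_iff₀ hs0]
  have h1 : ((F 2 4 n : ℕ) : ℝ) + ((T Q n).card : ℝ) ≤ n := by exact_mod_cast F_add_card_T hQ n
  have h2 := card_T hQ n
  have h3 : Real.sqrt n * (K + 1) ≤ Real.sqrt n * ((∑ q ∈ Q, 1 / (q : ℝ)) / 16) := by
    apply mul_le_mul_of_nonneg_left _ hs0.le
    linarith
  nlinarith

/-- **The conjectured order `n^(k/d)` is wrong.** It is false that for all `1 < k < d`, `d ≥ 4`, there are
`0 < c ≤ C` with `c n^(k/d) ≤ n - F_{k,d}(n) ≤ n - f_{k,d}(n) ≤ C n^(k/d)` for all large `n`; already for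
`(k, d) = (2, 4)` the quotient `(n - F_{2,4}(n)) / n^(2/4)` tends to infinity. -/
theorem result :
    (¬ ∀ k d : ℕ, 1 < k → k < d → 4 ≤ d → ∃ c C : ℝ, 0 < c ∧ c ≤ C ∧ ∀ᶠ n : ℕ in atTop,
      c * (n : ℝ) ^ ((k : ℝ) / d) ≤ (n : ℝ) - F k d n ∧ (n : ℝ) - F k d n ≤ (n : ℝ) - f k d n ∧
        (n : ℝ) - f k d n ≤ C * (n : ℝ) ^ ((k : ℝ) / d)) ∧
    Tendsto (fun n : ℕ => ((n : ℝ) - F 2 4 n) / (n : ℝ) ^ ((2 : ℝ) / 4)) atTop atTop := by
  refine ⟨fun h => ?_, tendsto_two_four⟩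
  obtain ⟨c, C, -, -, h1⟩ := h 2 4 (by norm_num) (by norm_num) (by norm_num)
  obtain ⟨n, h2, h3, h4⟩ := (h1.and ((tendsto_two_four.eventually_gt_atTop C).and
    (eventually_ge_atTop 1))).exists
  have hn0 : (0 : ℝ) < n := by exact_mod_cast h4
  rw [lt_div_iff₀ (Real.rpow_pos_of_pos hn0 _)] at h3
  obtain ⟨-, h5, h6⟩ := h2
  push_cast at h6
  linarith

end Pool.Agent.Results.MP_5e019f_nt.SquareRootFails
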